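import Mathlib

/-!
Job Y272-LC EH: the contraction lemma of Earle and Hamilton.
-/

set_option autoImplicit false

open Complex Filter Topology Metric Set

namespace Pool.Agent.Y215.LC.EH

/-- EH: the contraction lemma of Earle and Hamilton -/
def St_Eh : Prop := ∀ (W : Set ℂ) (g : ℂ → ℂ) (δ D : ℝ), IsOpen W → DifferentiableOn ℂ g W →
  MapsTo g W W → 0 < δ → 0 < D → (∀ x ∈ W, ∀ y ∈ W, ‖x - y‖ ≤ D) →
  (∀ x ∈ W, ball (g x) δ ⊆ W) → ∀ x ∈ W, ∀ r : ℝ, 0 < r → ball x r ⊆ W → ∀ k : ℕ,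
    ‖deriv (g^[k]) x‖ * r * (1 + δ / (2 * D)) ^ k ≤ D

/-- Cauchy estimate on an open ball. -/
theorem eh_cauchy (F : ℂ → ℂ) (x : ℂ) (r : ℝ) (_ : 0 < r)
    (hF : DifferentiableOn ℂ F (ball x r))
    (hb : ∀ z ∈ ball x r, ‖F z‖ ≤ 1) : ‖deriv F x‖ * r ≤ 1 := by
  by_contra hcon
  push Not at hcon
  have hpos : 0 < ‖deriv F x‖ := by
    by_contra h0
    have : ‖deriv F x‖ = 0 := le_antisymm (not_lt.1 h0) (norm_nonneg _)
    rw [this] at hcon
    linarith
  obtain ⟨r', hr1, hr2⟩ := exists_between ((div_lt_iff₀' hpos).2 hcon)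
  have hr'pos : 0 < r' := lt_trans (by positivity) hr1
  have hsub : closedBall x r' ⊆ ball x r := closedBall_subset_ball hr2
  have hd : DiffContOnCl ℂ F (ball x r') :=
    (hF.mono hsub).diffContOnCl_ball (subset_refl _)
  have := Complex.norm_deriv_le_of_forall_mem_sphere_norm_le hr'pos hd
    (fun z hz => hb z (hsub (sphere_subset_closedBall hz)))
  rw [le_div_iff₀ hr'pos] at this
  rw [div_lt_iff₀' hpos] at hr1
  linarith

/-- One step: a bound for all competitors at `x` gives a better bound at `g x`. -/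
theorem eh_step (W : Set ℂ) (g : ℂ → ℂ) (δ D : ℝ) (hW : IsOpen W) (hg : DifferentiableOn ℂ g W)
    (hm : MapsTo g W W) (hδ : 0 < δ) (hD : 0 < D) (hdiam : ∀ x ∈ W, ∀ y ∈ W, ‖x - y‖ ≤ D)
    (hball : ∀ x ∈ W, ball (g x) δ ⊆ W) (x : ℂ) (hx : x ∈ W) (B : ℝ)
    (hB : ∀ F : ℂ → ℂ, DifferentiableOn ℂ F W → (∀ z ∈ W, ‖F z‖ ≤ 1) → ‖deriv F x‖ ≤ B)
    (F : ℂ → ℂ) (hF : DifferentiableOn ℂ F W) (hF1 : ∀ z ∈ W, ‖F z‖ ≤ 1) :
    ‖deriv F (g x)‖ * ‖deriv g x‖ * (1 + δ / (2 * D)) ≤ B := by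
  set κ : ℝ := δ / (2 * D) with hκ
  have hκpos : 0 < κ := by positivity
  set G : ℂ → ℂ := fun z => g z + κ * (g z - g x) with hG
  have hGx : G x = g x := by simp [hG]
  have hGW : MapsTo G W W := by
    intro z hz
    apply hball z hz
    rw [mem_ball, dist_eq_norm]
    have h1 : G z - g z = κ * (g z - g x) := by simp [hG]
    rw [h1, norm_mul, Complex.norm_real, Real.norm_of_nonneg hκpos.le]
    have h2 := hdiam (g z) (hm hz) (g x) (hm hx)
    calc κ * ‖g z - g x‖ ≤ κ * D := by gcongr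
      _ = δ / 2 := by rw [hκ]; field_simp
      _ < δ := by linarith
  have hGd : DifferentiableOn ℂ G W := hg.add ((hg.sub_const _).const_mul _)
  have hgx : HasDerivAt g (deriv g x) x := (hg.differentiableAt (hW.mem_nhds hx)).hasDerivAt
  have hGx' : HasDerivAt G ((1 + κ) * deriv g x) x := by
    have h := hgx.add ((hgx.sub_const (g x)).const_mul (κ : ℂ))
    have h2 : (1 + (κ : ℂ)) * deriv g x = deriv g x + κ * deriv g x := by ring
    rw [h2]
    exact h
  have hFd : HasDerivAt F (deriv F (G x)) (G x) :=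
    (hF.differentiableAt (hW.mem_nhds (hGW hx))).hasDerivAt
  have hcomp := hFd.comp x hGx'
  have h3 := hB (F ∘ G) (hF.comp hGd hGW) (fun z hz => hF1 _ (hGW hz))
  rw [hcomp.deriv, hGx, norm_mul, norm_mul] at h3
  have h4 : ‖(1 + (κ : ℂ))‖ = 1 + κ := by
    have : (1 + (κ : ℂ)) = ((1 + κ : ℝ) : ℂ) := by push_cast; ring
    rw [this, Complex.norm_real, Real.norm_of_nonneg (by linarith)]
  rw [h4] at h3
  calc ‖deriv F (g x)‖ * ‖deriv g x‖ * (1 + κ) = ‖deriv F (g x)‖ * ((1 + κ) * ‖deriv g x‖) := by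
        ring
    _ ≤ B := h3

/-- EH -/
theorem t : St_Eh := by
  intro W g δ D hW hg hm hδ hD hdiam hball x hx r hr hxr k
  set κ : ℝ := δ / (2 * D) with hκ
  have hκpos : 0 < κ := by positivity
  have hmk : ∀ k, g^[k] x ∈ W := fun k => hm.iterate k hx
  have hdk : ∀ k, HasDerivAt (g^[k]) (deriv (g^[k]) x) x := by
    intro k
    have h1 : DifferentiableOn ℂ (g^[k]) W := by
      induction k with
      | zero => exact differentiableOn_id
      | succ k ih =>
        rw [Function.iterate_succ']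
        exact hg.comp ih (hm.iterate k)
    exact (h1.differentiableAt (hW.mem_nhds hx)).hasDerivAt
  have hsucc : ∀ k, deriv (g^[k + 1]) x = deriv g (g^[k] x) * deriv (g^[k]) x := by
    intro k
    rw [Function.iterate_succ']
    exact (((hg.differentiableAt (hW.mem_nhds (hmk k))).hasDerivAt).comp x (hdk k)).deriv
  have main : ∀ k : ℕ, ∀ F : ℂ → ℂ, DifferentiableOn ℂ F W → (∀ z ∈ W, ‖F z‖ ≤ 1) →
      ‖deriv F (g^[k] x)‖ * ‖deriv (g^[k]) x‖ * r * (1 + κ) ^ k ≤ 1 := by
    intro k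
    induction k with
    | zero =>
      intro F hF hF1
      have h0 : deriv (g^[0]) x = 1 := by
        rw [Function.iterate_zero]; exact deriv_id x
      rw [h0]
      simpa using eh_cauchy F x r hr (hF.mono hxr) (fun z hz => hF1 z (hxr hz))
    | succ k ih =>
      intro F hF hF1
      by_cases hz : ‖deriv (g^[k]) x‖ = 0
      · rw [hsucc, norm_mul, hz]
        simp
      · have hpos : 0 < ‖deriv (g^[k]) x‖ := lt_of_le_of_ne (norm_nonneg _) (Ne.symm hz)
        set c : ℝ := ‖deriv (g^[k]) x‖ * r * (1 + κ) ^ k with hc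
        have hcpos : 0 < c := by positivity
        have hB : ∀ F : ℂ → ℂ, DifferentiableOn ℂ F W → (∀ z ∈ W, ‖F z‖ ≤ 1) →
            ‖deriv F (g^[k] x)‖ ≤ 1 / c := by
          intro F hF hF1
          rw [le_div_iff₀ hcpos]
          have := ih F hF hF1
          calc ‖deriv F (g^[k] x)‖ * c = ‖deriv F (g^[k] x)‖ * ‖deriv (g^[k]) x‖ * r *
                (1 + κ) ^ k := by rw [hc]; ring
            _ ≤ 1 := this
        have h := eh_step W g δ D hW hg hm hδ hD hdiam hball (g^[k] x) (hmk k) (1 / c) hB F hF hF1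
        rw [le_div_iff₀ hcpos] at h
        rw [hsucc, norm_mul, Function.iterate_succ_apply']
        calc ‖deriv F (g (g^[k] x))‖ * (‖deriv g (g^[k] x)‖ * ‖deriv (g^[k]) x‖) * r *
              (1 + κ) ^ (k + 1)
            = ‖deriv F (g (g^[k] x))‖ * ‖deriv g (g^[k] x)‖ * (1 + κ) * c := by
              rw [hc]; ring
          _ ≤ 1 := h
  have h := main k (fun z => (z - g^[k] x) / D) ((differentiableOn_id.sub_const _).div_const _)
    (fun z hz => by
      rw [norm_div, Complex.norm_real, Real.norm_of_nonneg hD.le, div_le_one hD]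
      exact hdiam z hz _ (hmk k))
  have hder : deriv (fun z : ℂ => (z - g^[k] x) / D) (g^[k] x) = 1 / D := by
    have h1 : HasDerivAt (fun z : ℂ => (z - g^[k] x) / D) (1 / D) (g^[k] x) :=
      ((hasDerivAt_id _).sub_const _).div_const _
    exact h1.deriv
  rw [hder, norm_div, norm_one, Complex.norm_real, Real.norm_of_nonneg hD.le] at h
  have h5 : 1 / D * ‖deriv (g^[k]) x‖ * r * (1 + κ) ^ k =
      (‖deriv (g^[k]) x‖ * r * (1 + κ) ^ k) / D := by ring
  rw [h5, div_le_one hD] at h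
  exact h

end Pool.Agent.Y215.LC.EH
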