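import Pool.Agent.Y272.LC.Stm
import Pool.Agent.W746.LD.Koebe

/-!
Job Y272-LC SNAIL: the multiplier at the landing point of a periodic ray.
-/

set_option autoImplicit false

open Complex Filter Topology Metric Set

namespace Pool.Agent.Y215.LC.SN

open Pool.Agent.Y272.LC Pool.Agent.H712R2 Pool.Agent.H713R2 Pool.Agent.H713R2.AR
open Pool.Agent.W746.LD

theorem zt_re (s t : ℝ) : (zt s t).re = s := by
  simp [zt]

theorem per_nat {d : ℕ} {Φ : ℂ → ℂ → ℂ} (hΦ : IsBott d Φ) (c ζ : ℂ) (h : green d c 0 < ζ.re)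
    (k : ℕ) : Φ c (ζ + k * (((2 * Real.pi : ℝ) : ℂ) * I)) = Φ c ζ := by
  induction k with
  | zero => simp
  | succ k ih =>
    have h1 : ζ + ((k + 1 : ℕ) : ℂ) * (((2 * Real.pi : ℝ) : ℂ) * I) =
        (ζ + k * (((2 * Real.pi : ℝ) : ℂ) * I)) + ((2 * Real.pi : ℝ) : ℂ) * I := by
      push_cast; ring
    have h2 : (ζ + k * (((2 * Real.pi : ℝ) : ℂ) * I)).re = ζ.re := by
      simp
    rw [h1, hΦ.per c _ (by rw [h2]; exact h), ih]

theorem per_int {d : ℕ} {Φ : ℂ → ℂ → ℂ} (hΦ : IsBott d Φ) (c ζ : ℂ) (h : green d c 0 < ζ.re)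
    (k : ℤ) : Φ c (ζ + k * (((2 * Real.pi : ℝ) : ℂ) * I)) = Φ c ζ := by
  obtain ⟨n, rfl | rfl⟩ := k.eq_nat_or_neg
  · exact_mod_cast per_nat hΦ c ζ h n
  · have h2 : (ζ + ((-(n : ℤ) : ℤ) : ℂ) * (((2 * Real.pi : ℝ) : ℂ) * I)).re = ζ.re := by
      simp
    have h3 := per_nat hΦ c (ζ + ((-(n : ℤ) : ℤ) : ℂ) * (((2 * Real.pi : ℝ) : ℂ) * I))
      (by rw [h2]; exact h) n
    rw [← h3]
    congr 1
    push_cast
    ring

theorem map_iter {d : ℕ} (hd : 2 ≤ d) {Φ : ℂ → ℂ → ℂ} (hΦ : IsBott d Φ) (c ζ : ℂ)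
    (h0 : green d c 0 = 0) (h : 0 < ζ.re) (n : ℕ) :
    (fc d c)^[n] (Φ c ζ) = Φ c ((d : ℂ) ^ n * ζ) := by
  have hd0 : (0 : ℝ) < d := by positivity
  induction n with
  | zero => simp
  | succ n ih =>
    rw [Function.iterate_succ_apply', ih, hΦ.map c _ ?_]
    · congr 1; ring
    · rw [h0]
      have h1 : ((d : ℂ) ^ n * ζ).re = (d : ℝ) ^ n * ζ.re := by
        have : ((d : ℂ) ^ n) = (((d : ℝ) ^ n : ℝ) : ℂ) := by push_cast; ring
        rw [this, Complex.re_ofReal_mul]
      rw [h1]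
      positivity

theorem func {d : ℕ} (hd : 2 ≤ d) {Φ : ℂ → ℂ → ℂ} (hΦ : IsBott d Φ) (c : ℂ)
    (h0 : green d c 0 = 0) (t : ℝ) (N : ℕ) (m : ℤ) (hm : ((d : ℝ) ^ N - 1) * t = m) (s : ℝ)
    (hs : 0 < s) : (fc d c)^[N] (Φ c (zt s t)) = Φ c (zt ((d : ℝ) ^ N * s) t) := by
  rw [map_iter hd hΦ c _ h0 (by rw [zt_re]; exact hs)]
  have hpos : 0 < (d : ℝ) ^ N * s := by
    have : (0 : ℝ) < d := by positivity
    positivity
  have h1 := per_int hΦ c (zt ((d : ℝ) ^ N * s) t) (by rw [h0, zt_re]; exact hpos) m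
  rw [← h1]
  congr 1
  have h2 : (d : ℝ) ^ N * t = t + m := by linarith
  have h3 : ((d : ℂ) ^ N) * (t : ℂ) = t + m := by exact_mod_cast congrArg (fun x : ℝ => (x : ℂ)) h2
  simp only [zt]
  push_cast
  linear_combination (2 * (Real.pi : ℂ) * I) * h3

theorem univ_ball {d : ℕ} {Φ : ℂ → ℂ → ℂ} (hΦ : IsBott d Φ) (c : ℂ)
    (h0 : green d c 0 = 0) (t s : ℝ) (hs1 : s ≤ 1) : Univ (Φ c) (zt s t) s := by
  have hre : ∀ ζ ∈ ball (zt s t) s, 0 < ζ.re := by
    intro ζ hζ
    rw [mem_ball, dist_eq_norm] at hζ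
    have h1 := (Complex.abs_re_le_norm (ζ - zt s t)).trans_lt hζ
    rw [Complex.sub_re, zt_re, abs_lt] at h1
    linarith [h1.1]
  refine ⟨fun ζ hζ => ?_, fun ζ hζ ζ' hζ' heq => ?_⟩
  · refine ((hΦ.hol c).differentiableAt ?_).differentiableWithinAt
    refine (isOpen_lt continuous_const Complex.continuous_re).mem_nhds ?_
    change green d c 0 < ζ.re
    rw [h0]
    exact hre ζ hζ
  · obtain ⟨k, hk⟩ := hΦ.inj c ζ ζ' (by rw [h0]; exact hre ζ hζ) (by rw [h0]; exact hre ζ' hζ') heq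
    have him : ζ.im - ζ'.im = k * (2 * Real.pi) := by
      have := congrArg Complex.im hk
      simp at this
      linarith
    rw [mem_ball, dist_eq_norm] at hζ hζ'
    have h1 := (Complex.abs_im_le_norm (ζ - zt s t)).trans_lt hζ
    have h2 := (Complex.abs_im_le_norm (ζ' - zt s t)).trans_lt hζ'
    rw [Complex.sub_im, abs_lt] at h1 h2
    have h3 : |(k : ℝ) * (2 * Real.pi)| < 2 := by
      rw [← him, abs_lt]
      constructor <;> linarith [h1.1, h1.2, h2.1, h2.2]
    have hk0 : k = 0 := by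
      by_contra hne
      have h4 : (1 : ℝ) ≤ |(k : ℝ)| := by
        have := Int.one_le_abs hne
        exact_mod_cast this
      rw [abs_mul, abs_of_pos (by positivity : (0 : ℝ) < 2 * Real.pi)] at h3
      nlinarith [Real.pi_gt_three]
    rw [hk, hk0]
    simp

/-- SNAIL -/
theorem t (_hG : St_Grn) (hD : St_Disc) : St_Snail := by
  intro d Φ hd hΦ c0 h0 t N p hN ⟨m, hm⟩ hland hper
  obtain ⟨C1, c1, K⟩ := exists_KC
  set F : ℂ → ℂ := (fc d c0)^[N] with hF
  set μ : ℂ := deriv F p with hμ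
  set D : ℝ := (d : ℝ) ^ N with hDdef
  have hd2 : (2 : ℝ) ≤ d := by exact_mod_cast hd
  have hD2 : (2 : ℝ) ≤ D := by
    rw [hDdef]
    calc (2 : ℝ) ≤ d := hd2
      _ = (d : ℝ) ^ 1 := by ring
      _ ≤ (d : ℝ) ^ N := pow_le_pow_right₀ (by linarith) hN
  set q : ℝ := D⁻¹ with hq
  have hq0 : 0 < q := by positivity
  have hqhalf : q ≤ 1 / 2 := by
    rw [hq, inv_le_comm₀ (by positivity) (by norm_num)]
    linarith
  have hDq : D * q = 1 := by rw [hq]; field_simp
  -- the points on the ray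
  set γ : ℕ → ℂ := fun j => Φ c0 (zt (q ^ j) t) with hγ
  have hqj : ∀ j : ℕ, 0 < q ^ j := fun j => by positivity
  have hqj1 : ∀ j : ℕ, q ^ j ≤ 1 := fun j => pow_le_one₀ hq0.le (by linarith)
  have hstep : ∀ j, F (γ (j + 1)) = γ j := by
    intro j
    have h1 := func hd hΦ c0 h0 t N m hm (q ^ (j + 1)) (hqj _)
    have h2 : D * q ^ (j + 1) = q ^ j := by
      rw [pow_succ]
      linear_combination (q ^ j) * hDq
    change (fc d c0)^[N] (Φ c0 (zt (q ^ (j + 1)) t)) = Φ c0 (zt (q ^ j) t)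
    rw [h1, ← hDdef, h2]
  have hgrn : ∀ j, green d c0 (γ j) = q ^ j := by
    intro j
    have := hΦ.grn c0 (zt (q ^ j) t) (by rw [h0, zt_re]; exact hqj j)
    rw [zt_re] at this
    exact this
  have hFp : F p = p := hper
  have hne : ∀ j, γ j ≠ p := by
    intro j hj
    -- then all `γ i`, `i ≤ j`, are `p`; but their levels differ
    have h1 : F (γ (j + 1)) = γ j := hstep j
    have h2 : γ (j + 1) ≠ p ∨ γ (j + 1) = p := (ne_or_eq _ _)
    -- use the level of `p` computed in two ways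
    have hiter : ∀ i ≤ j, γ (j - i) = p := by
      intro i
      induction i with
      | zero => intro _; simpa using hj
      | succ i ih =>
        intro hi
        have h3 := ih (by omega)
        have h4 := hstep (j - (i + 1))
        have h5 : j - (i + 1) + 1 = j - i := by omega
        rw [h5, h3, hFp] at h4
        exact h4.symm
    have h6 : γ 0 = p := by simpa using hiter j le_rfl
    have h7 : F (γ 0) = γ 0 := by rw [h6]; exact hFp
    have h8 := func hd hΦ c0 h0 t N m hm 1 one_pos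
    have h9 : γ 0 = Φ c0 (zt 1 t) := by simp [hγ]
    rw [h9] at h7
    change (fc d c0)^[N] (Φ c0 (zt 1 t)) = _ at h7
    rw [h8] at h7
    have h10 := congrArg (green d c0) h7
    rw [hΦ.grn c0 _ (by rw [h0, zt_re]; positivity), hΦ.grn c0 _ (by rw [h0, zt_re]; norm_num),
      zt_re, zt_re, mul_one, ← hDdef] at h10
    linarith
  have hγp : Tendsto γ atTop (𝓝 p) := by
    refine hland.comp ?_
    rw [tendsto_nhdsWithin_iff]
    refine ⟨tendsto_pow_atTop_nhds_zero_of_lt_one hq0.le (by linarith), ?_⟩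
    exact Eventually.of_forall fun j => hqj j
  -- the ratios
  have hFdiff : Differentiable ℂ F := by
    have h1 : Differentiable ℂ (fc d c0) := by
      unfold fc
      exact (differentiable_id.pow d).add_const c0
    exact h1.iterate N
  have hder : HasDerivAt F μ p := (hFdiff p).hasDerivAt
  have hratio : Tendsto (fun j => (γ j - p) / (γ (j + 1) - p)) atTop (𝓝 μ) := by
    have h1 := hasDerivAt_iff_tendsto_slope.1 hder
    have h2 : Tendsto (fun j => γ (j + 1)) atTop (𝓝[≠] p) := by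
      rw [tendsto_nhdsWithin_iff]
      exact ⟨hγp.comp (tendsto_add_atTop_nat 1), Eventually.of_forall fun j => hne (j + 1)⟩
    have h3 := h1.comp h2
    refine h3.congr fun j => ?_
    simp only [Function.comp_apply, slope_def_field, hstep, hFp]
  by_contra hcon
  push Not at hcon
  obtain ⟨hle, hne1⟩ := hcon
  have hnr : Tendsto (fun j => ‖γ j - p‖ / ‖γ (j + 1) - p‖) atTop (𝓝 ‖μ‖) := by
    refine (hratio.norm).congr fun j => ?_
    rw [norm_div]
  have hposn : ∀ j, 0 < ‖γ j - p‖ := fun j => norm_pos_iff.2 (sub_ne_zero.2 (hne j))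
  -- the multiplier has modulus one
  have hμ1 : ‖μ‖ = 1 := by
    refine le_antisymm hle ?_
    by_contra hlt
    push Not at hlt
    obtain ⟨j0, hj0⟩ := eventually_atTop.1 (hnr.eventually (gt_mem_nhds hlt))
    have hmono : ∀ i, ‖γ j0 - p‖ ≤ ‖γ (j0 + i) - p‖ := by
      intro i
      induction i with
      | zero => exact le_rfl
      | succ i ih =>
        have h1 := hj0 (j0 + i) (by omega)
        rw [div_lt_one (hposn _)] at h1
        exact ih.trans h1.le
    have h2 : Tendsto (fun i => ‖γ (j0 + i) - p‖) atTop (𝓝 0) := by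
      have h3 : Tendsto (fun j => ‖γ j - p‖) atTop (𝓝 0) := by
        have := (hγp.sub_const p).norm
        simpa using this
      have h4 := h3.comp (tendsto_add_atTop_nat j0)
      refine h4.congr fun i => ?_
      simp [add_comm]
    have h3 := ge_of_tendsto' h2 hmono
    linarith [hposn j0]
  set δ : ℝ := ‖μ - 1‖ with hδ
  have hδpos : 0 < δ := norm_pos_iff.2 (sub_ne_zero.2 hne1)
  -- eventually the steps are comparable to the distance to `p`
  have hev : ∀ᶠ j in atTop, δ / 4 * ‖γ j - p‖ ≤ ‖γ j - γ (j + 1)‖ := by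
    have h1 : Tendsto (fun j => ‖(γ j - p) / (γ (j + 1) - p) - 1‖) atTop (𝓝 δ) :=
      (hratio.sub_const 1).norm
    have h2 : ∀ᶠ j in atTop, δ / 2 < ‖(γ j - p) / (γ (j + 1) - p) - 1‖ :=
      h1.eventually (lt_mem_nhds (by linarith))
    have h3 : ∀ᶠ j in atTop, ‖γ j - p‖ / ‖γ (j + 1) - p‖ < 2 :=
      hnr.eventually (gt_mem_nhds (by rw [hμ1]; norm_num))
    filter_upwards [h2, h3] with j h4 h5
    have h6 : γ (j + 1) - p ≠ 0 := sub_ne_zero.2 (hne _)
    have h7 : (γ j - p) / (γ (j + 1) - p) - 1 = (γ j - γ (j + 1)) / (γ (j + 1) - p) := by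
      field_simp
      ring
    rw [h7, norm_div, lt_div_iff₀ (hposn _)] at h4
    rw [div_lt_iff₀ (hposn _)] at h5
    nlinarith [hposn j, hposn (j + 1)]
  -- the Koebe chain
  obtain ⟨M, hM1, hM⟩ := K.chain (η := q) (B := 1) hq0 one_pos
  have hc1 := K.pos
  have hchain : ∀ s : ℝ, 0 < s → s ≤ 1 →
      ‖Φ c0 (zt (s * q) t) - Φ c0 (zt s t)‖ ≤ M * (s * ‖deriv (Φ c0) (zt s t)‖) := by
    intro s hs hs1
    have hu := univ_ball hΦ c0 h0 t s hs1
    set φ : ℂ → ℂ := fun w => Φ c0 (zt s t + s * w) with hφ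
    have hsC : (s : ℂ) ≠ 0 := by exact_mod_cast hs.ne'
    have hmaps : MapsTo (fun w : ℂ => zt s t + s * w) (ball 0 1) (ball (zt s t) s) := by
      intro w hw
      rw [mem_ball, dist_eq_norm, sub_zero] at hw
      rw [mem_ball, dist_eq_norm, add_sub_cancel_left, norm_mul, Complex.norm_real,
        Real.norm_of_nonneg hs.le]
      nlinarith
    have haff : ∀ w : ℂ, HasDerivAt (fun w : ℂ => zt s t + s * w) s w := by
      intro w
      have := ((hasDerivAt_id w).const_mul (s : ℂ)).const_add (zt s t)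
      simpa using this
    have huφ : Univ φ 0 1 := by
      refine ⟨hu.1.comp (fun w _ => (haff w).differentiableAt.differentiableWithinAt) hmaps, ?_⟩
      intro w hw w' hw' heq
      have h1 := hu.2 (hmaps hw) (hmaps hw') heq
      have h2 : (s : ℂ) * w = s * w' := by simpa using h1
      exact mul_left_cancel₀ hsC h2
    have h1 := (hM φ 0 (1 - q) (by linarith) (by linarith) (by rw [sub_add_cancel]; exact huφ)
      0 (mem_closedBall_self (by linarith)) (-((1 - q : ℝ) : ℂ)) (by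
        rw [mem_closedBall, dist_eq_norm, sub_zero, norm_neg, Complex.norm_real,
          Real.norm_of_nonneg (by linarith)])).2
    have hd0 : deriv φ 0 = deriv (Φ c0) (zt s t) * s := by
      have h2 : HasDerivAt (Φ c0) (deriv (Φ c0) (zt s t)) (zt s t + s * 0) := by
        rw [mul_zero, add_zero]
        exact (hu.1.differentiableAt (isOpen_ball.mem_nhds (mem_ball_self hs))).hasDerivAt
      exact (h2.comp (0 : ℂ) (haff 0)).deriv
    have hw1 : φ (-((1 - q : ℝ) : ℂ)) = Φ c0 (zt (s * q) t) := by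
      simp only [hφ, zt]
      congr 1
      push_cast
      ring
    have hw0 : φ 0 = Φ c0 (zt s t) := by simp [hφ]
    rw [hd0, hw1, hw0, norm_mul, Complex.norm_real, Real.norm_of_nonneg hs.le] at h1
    calc _ ≤ M * (‖deriv (Φ c0) (zt s t)‖ * s) := h1
      _ = M * (s * ‖deriv (Φ c0) (zt s t)‖) := by ring
  set κ : ℝ := c1 * δ / (32 * M) with hκ
  have hMpos : 0 < M := by linarith
  have hκpos : 0 < κ := by positivity
  obtain ⟨j0, hj0⟩ := eventually_atTop.1 hev
  -- every point of the disc is hit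
  have hhit : ∀ j ≥ j0, ∀ a ∈ ball (γ j) (κ * ‖γ j - p‖),
      ∃ w ∈ ball (zt (q ^ j) t) (q ^ j / 8), Φ c0 w = a := by
    intro j hj a ha
    by_contra hno
    push Not at hno
    have hu : Univ (Φ c0) (zt (q ^ j) t) (q ^ j / 8) :=
      (univ_ball hΦ c0 h0 t (q ^ j) (hqj1 j)).mono (ball_subset_ball (by linarith [hqj j]))
    have h1 := K.komit (Φ c0) (zt (q ^ j) t) (q ^ j / 8) (by have := hqj j; positivity) hu a hno
    have h2 := hchain (q ^ j) (hqj j) (hqj1 j)
    have h3 := hj0 j hj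
    have h4 : ‖γ j - γ (j + 1)‖ = ‖Φ c0 (zt (q ^ j * q) t) - Φ c0 (zt (q ^ j) t)‖ := by
      rw [norm_sub_rev]
      simp only [hγ, pow_succ]
    rw [h4] at h3
    have h5 : δ / 4 * ‖γ j - p‖ ≤ M * (q ^ j * ‖deriv (Φ c0) (zt (q ^ j) t)‖) := h3.trans h2
    rw [mem_ball, dist_eq_norm, norm_sub_rev] at ha
    have h6 : κ * ‖γ j - p‖ ≤ c1 * (q ^ j / 8) * ‖deriv (Φ c0) (zt (q ^ j) t)‖ := by
      have h7 : κ * ‖γ j - p‖ = c1 / (8 * M) * (δ / 4 * ‖γ j - p‖) := by
        rw [hκ]; field_simp; ring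
      rw [h7]
      calc c1 / (8 * M) * (δ / 4 * ‖γ j - p‖)
          ≤ c1 / (8 * M) * (M * (q ^ j * ‖deriv (Φ c0) (zt (q ^ j) t)‖)) := by gcongr
        _ = _ := by field_simp
    have h8 : Φ c0 (zt (q ^ j) t) = γ j := rfl
    rw [h8] at h1
    linarith
  -- contradiction with the area estimate
  obtain ⟨i, j, hij, hnd⟩ := hD (fun n => γ (n + j0)) p κ hκpos (fun n => hne _)
    (hγp.comp (tendsto_add_atTop_nat j0)) (by
      have h1 : Tendsto (fun j => (‖γ j - p‖ / ‖γ (j + 1) - p‖)⁻¹) atTop (𝓝 1) := by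
        have := hnr.inv₀ (by rw [hμ1]; norm_num)
        rw [hμ1, inv_one] at this
        exact this
      have h2 := h1.comp (tendsto_add_atTop_nat j0)
      refine h2.congr fun n => ?_
      simp only [Function.comp_apply, inv_div]
      rw [show n + 1 + j0 = n + j0 + 1 by ring])
  apply hnd
  -- wlog
  have key : ∀ i j : ℕ, i < j → Disjoint (ball (γ (i + j0)) (κ * ‖γ (i + j0) - p‖))
      (ball (γ (j + j0)) (κ * ‖γ (j + j0) - p‖)) := by
    intro i j hij
    rw [Set.disjoint_left]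
    intro a ha ha'
    obtain ⟨w, hw, hwa⟩ := hhit (i + j0) (by omega) a ha
    obtain ⟨w', hw', hwa'⟩ := hhit (j + j0) (by omega) a ha'
    have hsmall : q ^ (j + j0) ≤ q ^ (i + j0) / 2 := by
      calc q ^ (j + j0) ≤ q ^ (i + j0 + 1) := pow_le_pow_of_le_one hq0.le (by linarith) (by omega)
        _ = q ^ (i + j0) * q := pow_succ _ _
        _ ≤ q ^ (i + j0) / 2 := by nlinarith [hqj (i + j0)]
    have hre : ∀ (k : ℕ) (v : ℂ), v ∈ ball (zt (q ^ k) t) (q ^ k / 8) → 0 < v.re := by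
      intro k v hv
      rw [mem_ball, dist_eq_norm] at hv
      have h1 := (Complex.abs_re_le_norm (v - zt (q ^ k) t)).trans_lt hv
      rw [Complex.sub_re, zt_re, abs_lt] at h1
      linarith [h1.1, hqj k]
    have h1 := congrArg (green d c0) (hwa.trans hwa'.symm)
    rw [hΦ.grn c0 w (by rw [h0]; exact hre _ w hw), hΦ.grn c0 w' (by rw [h0]; exact hre _ w' hw')]
      at h1
    rw [mem_ball, dist_eq_norm] at hw hw'
    have h2 := (Complex.abs_re_le_norm (w - zt (q ^ (i + j0)) t)).trans_lt hw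
    have h3 := (Complex.abs_re_le_norm (w' - zt (q ^ (j + j0)) t)).trans_lt hw'
    rw [Complex.sub_re, zt_re, abs_lt] at h2 h3
    linarith [h2.1, h3.2, hqj (i + j0)]
  rcases lt_or_gt_of_ne hij with h | h
  · exact key i j h
  · exact (key j i h).symm

end Pool.Agent.Y215.LC.SN
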